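import Pool.Agent.H58.FL.Targets

/-!
Below the level the order of the fundamental class is a multiple of `n`, up to a factor `2`.
-/

set_option autoImplicit false

namespace Pool.Agent.H78.FL

open Pool.Agent.H58.FL Pool.Agent.H59 Pool.Agent.H48.FR

theorem pf_FIN (hEVL : T_EVL) (hVTX : T_VTX) (hSUP : T_SUP) (hINV : T_INV) (hRPM : T_RPM)
    (hSMC : T_SMC) (hBRI : T_BRI) (hFUN : T_FUN) : T_FIN := by
  intro κ hκ0 hκ1 hDiv n hn ε hε N hlt hkill
  obtain ⟨C, hC, hCs, hCv⟩ := hFUN n (Real.pi / 4) hn (by positivity)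
  obtain ⟨k, b, hb, hbd⟩ := hBRI κ hκ0.le hκ1 n ε hε N hn hlt hkill C hC
  obtain ⟨hR1, -, -, -, hR5⟩ := hRPM n
  -- small sets have no monopoles
  have hmn : ∀ S ∈ VS n (Real.pi / 4), ∀ x ∈ S, ∀ y ∈ S, ∀ z ∈ S, ∀ w ∈ S,
      mn (rp x) (rp y) (rp z) (rp w) = 0 := by
    intro S hS x hx y hy z hz w hw
    exact hSMC _ (rp x) (rp y) (rp z) (rp w) (hR1 x) (hR1 y) (hR1 z) (hR1 w)
      (hR5 x y (hS x hx y hy)) (hR5 x z (hS x hx z hz)) (hR5 x w (hS x hx w hw))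
      (hR5 y z (hS y hy z hz)) (hR5 y w (hS y hy w hw)) (hR5 z w (hS z hz w hw))
  have hdown : Down (VS n (Real.pi / 4)) := fun S hS T hT x hx y hy => hS x (hT hx) y (hT hy)
  have hon : On (VS n (Real.pi / 4)) (vx (2 * n + 1) (SdI (2 * n + 1) k C)) :=
    (hVTX (CPn n) (CPn n) (2 * n + 1)).2.2 _ hdown _
      ((hSUP (CPn n) _ hdown (2 * n + 1) k C hCs).1)
  obtain ⟨N', hN'⟩ := hDiv (EuclideanSpace ℂ (Fin (n + 1))) (CPn n) rp n b hR1 hn hb
    (by
      intro t ht i j k' l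
      rw [hbd] at ht
      have h1 := hon t (Finsupp.support_smul ht)
      exact hmn _ h1 _ ⟨i, rfl⟩ _ ⟨j, rfl⟩ _ ⟨k', rfl⟩ _ ⟨l, rfl⟩)
  have hff : (fun x y z => ar (rp x) (rp y) (rp z) / (2 * Real.pi)) = ff n := rfl
  rw [hff, hbd, (hEVL (CPn n) (2 * n)).2.1] at hN'
  have hinv := hINV (CPn n) _ hdown n (List.replicate n (ff n)) List.length_replicate
    (by
      intro g hg S hS x hx y hy z hz w hw
      rw [List.eq_of_mem_replicate hg]
      have h1 := hmn S hS x hx y hy z hz w hw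
      unfold mn at h1
      unfold d2 ff
      rw [← h1]
      ring) C hC hCs k
  rw [hinv] at hN'
  rcases hCv with h | h
  · rw [h, mul_one] at hN'
    exact ⟨N', by exact_mod_cast hN'⟩
  · rw [h] at hN'
    refine ⟨-N', ?_⟩
    have h2 : (2 : ℝ) * N = n * (-N') := by linear_combination -hN'
    exact_mod_cast h2

end Pool.Agent.H78.FL
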