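import Pool.Agent.H58.FL.Targets

/-!
The clusters of a set of pairwise close unit vectors which contains a monopole.
-/

set_option autoImplicit false

namespace Pool.Agent.H78.FL

open Pool.Agent.H58.FL Pool.Agent.H59 Pool.Agent.H48.FR

theorem pf_GEO (hMNP : T_MNP) (hOPP : T_OPP) (hEXC : T_EXC) (hCLU : T_CLU) : T_GEO := by
  intro E _ _ S hu hadj hex
  obtain ⟨m, hm, hanti, hcl, hexc⟩ := hMNP E S hu hadj
  have hne : ∀ x ∈ S, ∀ y ∈ S, ∀ z ∈ S, ∀ w ∈ S, (m x y z w ≠ 0 ↔ mn x y z w ≠ 0) := by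
    intro x hx y hy z hz w hw
    rw [hm x hx y hy z hz w hw]
    exact_mod_cast Iff.rfl
  obtain ⟨c, hc⟩ := hCLU E S m Far hanti hcl hexc
    (fun x hx y hy z hz w hw h => hOPP E x y z w (hu x hx) (hu y hy) (hu z hz) (hu w hw)
      (hadj x hx y hy) (hadj x hx z hz) (hadj x hx w hw) (hadj y hy z hz) (hadj y hy w hw)
      (hadj z hz w hw) ((hne x hx y hy z hz w hw).1 h))
    (fun x hx y hy z hz w hw v hv h h' => hEXC E x y z w v (hu x hx) (hu y hy) (hu z hz) (hu w hw)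
      (hu v hv) (hadj x hx y hy) (hadj x hx z hz) (hadj x hx w hw) (hadj y hy z hz)
      (hadj y hy w hw) (hadj z hz w hw) (hadj x hx v hv) (hadj y hy v hv) (hadj z hz v hv)
      ((hne x hx y hy z hz w hw).1 h)
      (by rw [hm x hx y hy z hz v hv, hm x hx y hy z hz w hw, h']))
    (by
      obtain ⟨x, hx, y, hy, z, hz, w, hw, h⟩ := hex
      exact ⟨x, hx, y, hy, z, hz, w, hw, (hne x hx y hy z hz w hw).2 h⟩)
  refine ⟨c, fun x hx y hy z hz w hw => ?_⟩
  rw [hm x hx y hy z hz w hw, hc x hx y hy z hz w hw]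

end Pool.Agent.H78.FL
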