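import Pool.Agent.H58.FL.Targets

/-!
Subdivision preserves families of simplices closed under subsets.
-/

set_option autoImplicit false

namespace Pool.Agent.H78.FL

open Pool.Agent.H58.FL Pool.Agent.H59 Pool.Agent.H48.FR

theorem pf_SUP : T_SUP := by
  intro Y _ K hK n k c hc
  have hsub : ∀ (m : ℕ) (W : Set Y), W ∈ K → ∀ y : Ch ℤ m Y, y ∈ Sup m W →
      y ∈ Finsupp.supported ℤ ℤ {σ : Smp m Y | Set.range σ ∈ K} := by
    intro m W hW y hy
    rw [Finsupp.mem_supported]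
    intro σ hσ
    refine hK W hW _ ?_
    rintro _ ⟨x, rfl⟩
    exact ((Finsupp.mem_supported ℤ y).1 hy hσ : ∀ x, σ x ∈ W) x
  have hc' : c ∈ Finsupp.supported ℤ ℤ {σ : Smp n Y | Set.range σ ∈ K} :=
    (Finsupp.mem_supported ℤ c).2 fun σ hσ => hc σ hσ
  constructor
  · have h : SdI n k c ∈ Finsupp.supported ℤ ℤ {σ : Smp n Y | Set.range σ ∈ K} := by
      refine lin_mem _ _ _ (fun σ hσ => ?_) hc'
      exact hsub n _ hσ _ (SdI_mem_Sup k (single_mem_Sup (fun x => Set.mem_range_self x) 1))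
    intro σ hσ
    exact (Finsupp.mem_supported ℤ _).1 h hσ
  · have h : DI n k c ∈ Finsupp.supported ℤ ℤ {σ : Smp (n + 1) Y | Set.range σ ∈ K} := by
      refine lin_mem _ _ _ (fun σ hσ => ?_) hc'
      exact hsub (n + 1) _ hσ _ (DI_mem_Sup k (single_mem_Sup (fun x => Set.mem_range_self x) 1))
    intro σ hσ
    exact (Finsupp.mem_supported ℤ _).1 h hσ

end Pool.Agent.H78.FL
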