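import Pool.Agent.H58.FL.Targets

/-!
Inner faces of the simplices of the subdivided cube cancel.
-/

set_option autoImplicit false

namespace Pool.Agent.H78.FL

open Pool.Agent.H58.FL Pool.Agent.H59 Pool.Agent.H48.FR

/-- the omitted coordinate of a point of a face is zero -/
lemma tci_cf_zero {d : ℕ} (i : Fin (d + 1)) (q : Dl d) : (cf i q) i = 0 := by
  classical
  change (stdSimplex.map (Fin.succAbove i) q : Fin (d + 1) → ℝ) i = 0
  rw [stdSimplex.map_coe, FunOnFinite.linearMap_apply_apply]
  refine Finset.sum_eq_zero fun j hj => ?_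
  rw [Finset.mem_filter] at hj
  exact absurd hj.2 (Fin.succAbove_ne i j)

/-- equal faces -/
lemma tci_face {Y : Type} [TopologicalSpace Y] {d N : ℕ} (H : C(Fin d → ℝ, Y))
    (x : Fin d → Fin N) (i : Fin (d + 1)) (π π' : Equiv.Perm (Fin d))
    (h : ∀ t : Fin (d + 1), t ≠ i → fv x π t = fv x π' t) :
    fc (H.comp (sx x π)) i = fc (H.comp (sx x π')) i := by
  apply ContinuousMap.ext
  intro q
  change H (fun k => ∑ t : Fin (d + 1), (cf i q) t * fv x π t k) =
    H (fun k => ∑ t : Fin (d + 1), (cf i q) t * fv x π' t k)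
  congr 1
  funext k
  refine Finset.sum_congr rfl fun t _ => ?_
  by_cases ht : t = i
  · rw [ht, tci_cf_zero, zero_mul, zero_mul]
  · rw [h t ht]

theorem pf_TCI : T_TCI := by
  intro Y _ d N H x i hi0 hid
  classical
  let a : Fin d := ⟨(i : ℕ) - 1, by omega⟩
  let b : Fin d := ⟨(i : ℕ), hid⟩
  have hab : a ≠ b := by
    intro h
    have := congrArg Fin.val h
    change (i : ℕ) - 1 = (i : ℕ) at this
    omega
  set S : Ch ℤ d Y := ∑ π : Equiv.Perm (Fin d),
    Finsupp.single (fc (H.comp (sx x π)) i) ((Equiv.Perm.sign π : ℤˣ) : ℤ) with hS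
  have hneg : S = -S := by
    conv_lhs => rw [hS]
    rw [← Equiv.sum_comp (Equiv.mulRight (Equiv.swap a b)), hS, ← Finset.sum_neg_distrib]
    refine Finset.sum_congr rfl fun π _ => ?_
    rw [Equiv.coe_mulRight, Equiv.Perm.sign_mul, Equiv.Perm.sign_swap hab,
      tci_face H x i (π * Equiv.swap a b) π]
    · rw [← Finsupp.single_neg]
      congr 1
      push_cast
      ring
    · intro t ht
      funext k
      unfold fv
      have hk : ((π * Equiv.swap a b).symm k : Fin d) = Equiv.swap a b (π.symm k) := by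
        rw [Equiv.symm_apply_eq, Equiv.Perm.mul_apply, Equiv.swap_apply_self,
          Equiv.apply_symm_apply]
      rw [hk]
      have ht' : (t : ℕ) ≠ (i : ℕ) := fun h => ht (Fin.ext h)
      have hiff : ((Equiv.swap a b (π.symm k) : Fin d) : ℕ) < (t : ℕ) ↔
          ((π.symm k : Fin d) : ℕ) < (t : ℕ) := by
        by_cases h1 : π.symm k = a
        · rw [h1, Equiv.swap_apply_left]
          change (i : ℕ) < (t : ℕ) ↔ (i : ℕ) - 1 < (t : ℕ)
          omega
        · by_cases h2 : π.symm k = b
          · rw [h2, Equiv.swap_apply_right]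
            change (i : ℕ) - 1 < (t : ℕ) ↔ (i : ℕ) < (t : ℕ)
            omega
          · rw [Equiv.swap_apply_of_ne_of_ne h1 h2]
      simp only [hiff]
  ext σ
  have h2 := DFunLike.congr_fun hneg σ
  rw [Finsupp.neg_apply] at h2
  rw [Finsupp.zero_apply]
  omega

end Pool.Agent.H78.FL
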